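import Pool.Agent.H7.LP.Targets3

/-!
Row REQ of the board lpq: the recursion.
-/

set_option autoImplicit false

namespace Pool.Agent.H25.LQ

open Set Filter Topology
open Pool.Agent.H93.CP Pool.Agent.H7.LP Pool.Agent.H7.LQ

/-- a function on `Ω × (ℕ × G)` is measurable if its restrictions to the values of the number
are -/
private theorem req_meas {Ω G α : Type} [MeasurableSpace Ω] [MeasurableSpace G]
    [MeasurableSpace α] (f : Ω × (ℕ × G) → α)
    (h : ∀ i, Measurable fun p : Ω × G => f (p.1, (i, p.2))) : Measurable f := by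
  have h1 : Measurable fun q : (Ω × G) × ℕ => f (q.1.1, (q.2, q.1.2)) :=
    measurable_from_prod_countable_left fun i => h i
  exact h1.comp ((measurable_fst.prodMk (measurable_snd.comp measurable_snd)).prodMk
    (measurable_fst.comp measurable_snd))

theorem pf_REQ (h1 : T_RCT) : T_REQ := by
  intro G _ _ _ _ _ _ B L sel hsel
  set bn : ℕ → ℕ → St2 × (ℕ × G) → G := fun i' n' p => sel (p.1.2 i' p.2.1).2 n' * p.2.2 with hbn
  have hw : ∀ i' i : ℕ, Measurable fun w : St2 => w.2 i' i := fun i' i =>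
    (measurable_pi_apply i).comp ((measurable_pi_apply i').comp measurable_snd)
  have hb : ∀ i' n', Measurable (bn i' n') := by
    intro i' n'
    refine req_meas _ fun i => ?_
    have h2 : Measurable fun p : St2 × G => sel (p.1.2 i' i).2 n' :=
      (hsel.meas n').comp (measurable_snd.comp ((hw i' i).comp measurable_fst))
    exact h2.mul measurable_snd
  have hle : ∀ i', Measurable fun p : St2 × (ℕ × G) => (p.1.2 i' p.2.1).1 := by
    intro i'
    refine req_meas _ fun i => ?_
    exact measurable_fst.comp ((hw i' i).comp measurable_fst)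
  have hcof : ∀ i' s, Measurable fun p : St2 × (ℕ × G) => (p.1.2 i' s).1 := fun i' s =>
    measurable_fst.comp ((hw i' s).comp measurable_fst)
  have hk : ∀ i' : ℕ, Measurable fun p : St2 × (ℕ × G) => (p.1.1 i').1 := fun i' =>
    measurable_fst.comp ((measurable_pi_apply i').comp (measurable_fst.comp measurable_fst))
  set t : ℕ → ℕ → St2 × (ℕ × G) → ℕ × G := fun _ n p =>
    (n.unpair.1, bn n.unpair.1 n.unpair.2 p) with ht
  set P : ℕ → ℕ → Set (St2 × (ℕ × G)) := fun s n => {p | (p.1.2 n.unpair.1 p.2.1).1 = true ∧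
    (p.1.2 n.unpair.1 s).1 = true ∧ ∀ r ∈ L.R (p.1.1 n.unpair.1).1,
      (bn n.unpair.1 n.unpair.2 p)⁻¹ * r * bn n.unpair.1 n.unpair.2 p ∈ L.R s} with hP
  have hcl : ∀ k s, IsClosed {b : G | ∀ r ∈ L.R k, b⁻¹ * r * b ∈ L.R s} := by
    intro k s
    have h2 : {b : G | ∀ r ∈ L.R k, b⁻¹ * r * b ∈ L.R s} =
        ⋂ r ∈ L.R k, (fun b : G => b⁻¹ * r * b) ⁻¹' (L.R s : Set G) := by
      ext b
      simp
    rw [h2]
    refine isClosed_biInter fun r _ => (L.piece s).cl.preimage ?_
    exact (continuous_inv.mul continuous_const).mul continuous_id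
  have hPm : ∀ s n, MeasurableSet (P s n) := by
    intro s n
    have h2 : P s n = {p | (p.1.2 n.unpair.1 p.2.1).1 = true} ∩
        ({p | (p.1.2 n.unpair.1 s).1 = true} ∩ ⋃ k, ({p | (p.1.1 n.unpair.1).1 = k} ∩
          bn n.unpair.1 n.unpair.2 ⁻¹' {b : G | ∀ r ∈ L.R k, b⁻¹ * r * b ∈ L.R s})) := by
      ext p
      simp [hP]
    rw [h2]
    refine (hle n.unpair.1 (measurableSet_singleton true)).inter
      ((hcof n.unpair.1 s (measurableSet_singleton true)).inter
        (MeasurableSet.iUnion fun k => ?_))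
    exact (hk n.unpair.1 (measurableSet_singleton k)).inter
      (hb n.unpair.1 n.unpair.2 (hcl k s).measurableSet)
  have htm : ∀ s n, Measurable (t s n) := fun s n =>
    measurable_const.prodMk (hb n.unpair.1 n.unpair.2)
  obtain ⟨F, hF1, hF2, hF3⟩ := h1 St2 (ℕ × G) (0, 1) t P htm hPm
  refine ⟨F, hF1, hF2, fun w s hex => ?_⟩
  have h3 : ∃ n, (w, F w s) ∈ P s n := by
    obtain ⟨i', b', hs⟩ := hex
    obtain ⟨n', hn'⟩ := hs.quo
    refine ⟨Nat.pair i' n', ?_⟩
    simp only [hP, Set.mem_ofPred_eq, Nat.unpair_pair, hbn]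
    refine ⟨hs.le, hs.cof, ?_⟩
    rw [← hn']
    exact hs.sml
  obtain ⟨n, hn, hn2⟩ := hF3 w s h3
  rw [hn2]
  obtain ⟨h4, h5, h6⟩ := hn
  exact ⟨h4, ⟨n.unpair.2, rfl⟩, h5, h6⟩

end Pool.Agent.H25.LQ
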